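import Pool.Agent.NumGor.CoreT

/-!
# DIM: height one primes drop the transcendence degree by one (MP_58c214_ag)
-/

open Module Cardinal MvPolynomial

namespace Pool.Agent.NumGor

universe u

namespace DIM

/-- The polynomial ring modulo a prime element. -/
theorem quot_trdeg (F : Type u) [Field F] (n : ℕ) (p : Ideal (MvPolynomial (Fin n) F))
    [p.IsPrime] (f : MvPolynomial (Fin n) F) (hf : Prime f) (hp : p = Ideal.span {f}) :
    Algebra.trdeg F (MvPolynomial (Fin n) F ⧸ p) + 1 = (n : Cardinal.{u}) := by
  classical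
  -- a variable which occurs in `f`
  obtain ⟨i, hi⟩ : ∃ i, f.degreeOf i ≠ 0 := by
    by_contra hc
    push Not at hc
    have h1 : f.vars = ∅ := by
      rw [Finset.eq_empty_iff_forall_notMem]
      intro i hi
      rw [mem_vars_iff_degreeOf_ne_zero] at hi
      exact hi (hc i)
    rw [vars_eq_empty_iff_eq_C] at h1
    have h2 : IsUnit f := by
      rw [h1]
      have h3 : coeff 0 f ≠ 0 := by
        intro h
        rw [h, C_0] at h1
        exact hf.ne_zero h1
      exact (isUnit_iff_ne_zero.2 h3).map C
    exact hf.not_isUnit h2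
  have hmk : ∀ h : MvPolynomial (Fin n) F, Ideal.Quotient.mk p h = 0 ↔ f ∣ h := by
    intro h
    rw [Ideal.Quotient.eq_zero_iff_mem, hp, Ideal.mem_span_singleton]
  -- lower bound
  have hlow : ((n - 1 : ℕ) : Cardinal.{u}) ≤ Algebra.trdeg F (MvPolynomial (Fin n) F ⧸ p) := by
    let x : {j : Fin n // j ≠ i} → MvPolynomial (Fin n) F ⧸ p := fun j => Ideal.Quotient.mk p (X j.1)
    have hx : AlgebraicIndependent F x := by
      rw [algebraicIndependent_iff]
      intro h hh
      have e : aeval x h = Ideal.Quotient.mk p (rename Subtype.val h) := by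
        have : aeval x = (Ideal.Quotient.mkₐ F p).comp (rename Subtype.val) := by
          apply MvPolynomial.algHom_ext
          intro j
          simp [x]
        rw [this]
        rfl
      rw [e, hmk] at hh
      by_contra hne
      have hne' : rename (Subtype.val : {j : Fin n // j ≠ i} → Fin n) h ≠ 0 := by
        intro h0
        exact hne (rename_injective _ Subtype.val_injective (by rw [h0, map_zero]))
      obtain ⟨k, hk⟩ := hh
      have hk0 : k ≠ 0 := by
        rintro rfl
        exact hne' (by rw [hk, mul_zero])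
      have h1 : degreeOf i (rename (Subtype.val : {j : Fin n // j ≠ i} → Fin n) h) = 0 := by
        by_contra hd
        rw [← Ne, ← mem_vars_iff_degreeOf_ne_zero] at hd
        obtain ⟨j, -, hj⟩ := mem_vars_rename _ _ hd
        exact j.2 hj
      rw [hk, degreeOf_mul_eq hf.ne_zero hk0] at h1
      omega
    have h1 := hx.lift_cardinalMk_le_trdeg
    rw [Cardinal.mk_fintype, Fintype.card_subtype_compl, Fintype.card_fin] at h1
    simpa using h1
  -- upper bound
  have hup : Algebra.trdeg F (MvPolynomial (Fin n) F ⧸ p) < (n : Cardinal.{u}) := by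
    by_contra hc
    rw [not_lt] at hc
    let x : Fin n → MvPolynomial (Fin n) F ⧸ p := fun j => Ideal.Quotient.mk p (X j)
    have htop : Algebra.adjoin F (Set.range x) = ⊤ := by
      rw [eq_top_iff]
      rintro y -
      obtain ⟨h, rfl⟩ := Ideal.Quotient.mk_surjective y
      rw [Algebra.adjoin_range_eq_range_aeval]
      refine ⟨h, ?_⟩
      have : aeval x = Ideal.Quotient.mkₐ F p := by
        apply MvPolynomial.algHom_ext
        intro j
        simp [x]
      show aeval x h = _
      rw [this]
      rfl
    have halg : Algebra.IsAlgebraic (Algebra.adjoin F (Set.range x)) (MvPolynomial (Fin n) F ⧸ p) := by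
      constructor
      intro y
      have hy : y ∈ Algebra.adjoin F (Set.range x) := by rw [htop]; exact Algebra.mem_top
      exact isAlgebraic_algebraMap (⟨y, hy⟩ : Algebra.adjoin F (Set.range x))
    have hb := Algebra.IsAlgebraic.isTranscendenceBasis_of_lift_le_trdeg_of_finite F x
      (by simpa using hc)
    have h0 : aeval x f = 0 := by
      have : aeval x = Ideal.Quotient.mkₐ F p := by
        apply MvPolynomial.algHom_ext
        intro j
        simp [x]
      rw [this]
      exact (hmk f).2 dvd_rfl
    exact hf.ne_zero (hb.1 (by rw [h0, map_zero]))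
  obtain ⟨m, hm⟩ := Cardinal.lt_aleph0.1 (hup.trans (Cardinal.natCast_lt_aleph0))
  rw [hm] at hlow hup ⊢
  have h1 : n - 1 ≤ m := by exact_mod_cast hlow
  have h2 : m < n := by exact_mod_cast hup
  have h3 : m + 1 = n := by omega
  rw [← h3]
  push_cast
  rfl

end DIM

theorem p_DIM : T_DIM.{u} := by
  intro F _ A _ _ _ _ q _ hq
  obtain ⟨n, g, hinj, hfin⟩ := exists_finite_inj_algHom_of_fg F A
  let _ : Algebra (MvPolynomial (Fin n) F) A := g.toRingHom.toAlgebra
  have : IsScalarTower F (MvPolynomial (Fin n) F) A :=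
    IsScalarTower.of_algebraMap_eq fun x => (g.commutes x).symm
  have : Module.Finite (MvPolynomial (Fin n) F) A := hfin
  have : FaithfulSMul (MvPolynomial (Fin n) F) A :=
    (faithfulSMul_iff_algebraMap_injective _ _).2 hinj
  have : IsNoetherianRing A := Algebra.FiniteType.isNoetherianRing F A
  set p : Ideal (MvPolynomial (Fin n) F) := q.under (MvPolynomial (Fin n) F) with hp
  have : p.IsPrime := inferInstance
  have : q.LiesOver p := ⟨rfl⟩
  have hpb : p ≠ ⊥ := by
    intro h
    have : q = ⊥ := Ideal.eq_bot_of_comap_eq_bot (R := MvPolynomial (Fin n) F) h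
    rw [this, Ideal.height_bot] at hq
    exact zero_ne_one hq
  have hph : p.height = 1 := by
    have h1 := Ideal.height_eq_height_add_of_liesOver_of_hasGoingDown p q
    rw [hq] at h1
    apply le_antisymm
    · rw [h1]; exact le_self_add
    · rw [Order.one_le_iff_pos, pos_iff_ne_zero, Ne, Ideal.height_eq_zero_iff_eq_bot]
      exact hpb
  obtain ⟨f, hfm, hf⟩ := Ideal.IsPrime.exists_mem_prime_of_ne_bot ‹_› hpb
  have hpf : p = Ideal.span {f} := p.eq_span_singleton_of_height_eq_one hph hfm hf
  have h1 := DIM.quot_trdeg F n p f hf hpf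
  have h2 : Algebra.trdeg F A = (n : Cardinal.{u}) := by
    rw [← _root_.trdeg_add_eq F (MvPolynomial (Fin n) F) (A := A)]
    rw [_root_.trdeg_eq_zero (R := MvPolynomial (Fin n) F) (A := A)]
    simp
  have h3 : Algebra.trdeg F (A ⧸ q) = Algebra.trdeg F (MvPolynomial (Fin n) F ⧸ p) := by
    have : FaithfulSMul (MvPolynomial (Fin n) F ⧸ p) (A ⧸ q) :=
      (faithfulSMul_iff_algebraMap_injective _ _).2
        (Ideal.algebraMap_quotient_injective)
    have : IsScalarTower F (MvPolynomial (Fin n) F ⧸ p) (A ⧸ q) := inferInstance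
    have : Algebra.IsIntegral (MvPolynomial (Fin n) F ⧸ p) (A ⧸ q) := inferInstance
    rw [← _root_.trdeg_add_eq F (MvPolynomial (Fin n) F ⧸ p) (A := A ⧸ q)]
    rw [_root_.trdeg_eq_zero (R := MvPolynomial (Fin n) F ⧸ p) (A := A ⧸ q), add_zero]
  rw [h3, h1, h2]

end Pool.Agent.NumGor
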