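import Pool.Agent.NumGor.Core

/-!
# Exact targets of the algebraic core (MP_58c214_ag)

Each `T_…` is the statement of one job; a job file proves `theorem p_… : T_…`, possibly from other
`T_…`.  Proofs: `Blueprint.lean.txt`.
-/

open Module Cardinal MvPolynomial

namespace Pool.Agent.NumGor

universe u

/-! ## Basic facts on points -/

/-- BAS. `U^n / w^n ⊆ O`; `Kills` is the kernel of `U^n → V^n`, so `dim V^n` is `dim U^n` minus the
dimension of the killed elements; `V` is `Ok`. -/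
def T_BAS : Prop :=
  ∀ (F : Type u) [Field F] (K : Type u) [Field K] [Algebra F K] (r : ℕ)
    (U : Fin r → Submodule F K), Ok U → ∀ p : Pt U,
    Ok p.V ∧ (∀ n, ∀ x ∈ pw U n, x / p.wn n ∈ p.O) ∧ (∀ n, p.wn n ∈ pw U n ∧ p.wn n ≠ 0) ∧
    ∀ n, ∃ Z : Submodule F K, (∀ x, x ∈ Z ↔ x ∈ pw U n ∧ p.Kills n x) ∧
      (∃ φ : pw U n →ₗ[F] p.κ, (∀ x h, φ x = p.ρ ⟨x.1 / p.wn n, h⟩) ∧
        LinearMap.range φ = pw p.V n) ∧
      finrank F (pw U n) = finrank F Z + hf p.V n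

/-- SUB. A point of a point is a point. -/
def T_SUB : Prop :=
  ∀ (F : Type u) [Field F] (K : Type u) [Field K] [Algebra F K] (r : ℕ)
    (U : Fin r → Submodule F K), Ok U → ∀ (q : Pt U) (s : Pt q.V),
    ∃ p : Pt U, (∀ n, hf p.V n = hf s.V n) ∧ Algebra.trdeg F p.κ = Algebra.trdeg F s.κ ∧
      (Full s.V → Full p.V) ∧ ∀ n, ∀ x ∈ pw U n, q.Kills n x → p.Kills n x

/-- FAC. If everything killed by `q` is killed by `p`, then `p` factors through `q`. -/
def T_FAC : Prop :=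
  ∀ (F : Type u) [Field F] (K : Type u) [Field K] [Algebra F K] (r : ℕ)
    (U : Fin r → Submodule F K), Ok U → ∀ (q p : Pt U), Full q.V →
    (∀ n, ∀ x ∈ pw U n, q.Kills n x → p.Kills n x) →
    ∃ s : Pt q.V, (∀ n, hf s.V n = hf p.V n) ∧ Algebra.trdeg F s.κ = Algebra.trdeg F p.κ ∧
      (Full p.V → Full s.V)

/-- TR. A strictly larger kernel gives a strictly smaller transcendence degree. -/
def T_TR : Prop :=
  ∀ (F : Type u) [Field F] (K : Type u) [Field K] [Algebra F K] (r : ℕ)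
    (U : Fin r → Submodule F K), Ok U →
    (∀ p q : Pt U, Full p.V → Full q.V → (∀ n, ∀ x ∈ pw U n, q.Kills n x → p.Kills n x) →
      (∃ n, ∃ x ∈ pw U n, p.Kills n x ∧ ¬ q.Kills n x) → Algebra.trdeg F q.κ < ℵ₀ →
      Algebra.trdeg F p.κ < Algebra.trdeg F q.κ) ∧
    (∀ p : Pt U, Full U → Full p.V → (∃ n, ∃ x ∈ pw U n, p.Kills n x ∧ x ≠ 0) →
      Algebra.trdeg F K < ℵ₀ → Algebra.trdeg F p.κ < Algebra.trdeg F K)

/-- DV. Prime filtration of a subquotient of the ring `⨁ U^n`. -/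
def T_DV : Prop :=
  ∀ (F : Type u) [Field F] (K : Type u) [Field K] [Algebra F K] (r : ℕ)
    (U : Fin r → Submodule F K), Ok U → ∀ (I J : Fam U), (∀ n, I.I n ≤ J.I n) →
    ∃ (L : List ((Fin r → ℕ) × Pt U)) (n₀ : ℕ),
      (∀ q ∈ L, Full q.2.V ∧ ∀ m, ∀ x ∈ pw U m,
        (∀ n, ∀ y ∈ J.I n, x * y ∈ I.I (m + n)) → q.2.Kills m x) ∧
      (∀ n : Fin r → ℕ, (∀ i, n₀ ≤ n i) →
        finrank F (J.I n) = finrank F (I.I n) + (L.map fun q => hf q.2.V (n - q.1)).sum) ∧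
      -- if `J / I` is not killed by anything outside a point, this point occurs up to smaller ones
      ∀ p : Pt U, (∀ m, ∀ x ∈ pw U m, (∀ n, ∀ y ∈ J.I n, x * y ∈ I.I (m + n)) → p.Kills m x) →
        ∃ q ∈ L, ∀ m, ∀ x ∈ pw U m, q.2.Kills m x → p.Kills m x

/-- HP. Existence of the Hilbert polynomial, of degree at most the transcendence degree. -/
def T_HP : Prop :=
  ∀ (F : Type u) [Field F] (K : Type u) [Field K] [Algebra F K] (r : ℕ)
    (U : Fin r → Submodule F K) (d : ℕ), Ok U → Full U → Algebra.trdeg F K = d →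
    ∃ P : MvPolynomial (Fin r) ℚ, P.totalDegree ≤ d ∧ IsHP U P

/-- NN. Linear Noether normalisation over an infinite field. -/
def T_NN : Prop :=
  ∀ (F : Type u) [Field F] [Infinite F] (K : Type u) [Field K] [Algebra F K]
    (H : Submodule F K) (d : ℕ), H.FG → (1 : K) ∈ H →
    IntermediateField.adjoin F (H : Set K) = ⊤ → Algebra.trdeg F K = d →
    ∃ x : Fin d → K, (∀ i, x i ∈ H) ∧ AlgebraicIndependent F x ∧
      ∀ h ∈ H, ∃ (N : ℕ) (c : Fin N → MvPolynomial (Fin d) F), 0 < N ∧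
        (∀ j, (c j).totalDegree ≤ N - j) ∧
        h ^ N + ∑ j : Fin N, aeval x (c j) * h ^ (j : ℕ) = 0

/-- BD. The dimension bound (generic line through a generic point). -/
def T_BD : Prop :=
  ∀ (F : Type u) [Field F] [Infinite F] (K : Type u) [Field K] [Algebra F K] (r : ℕ)
    (U : Fin r → Submodule F K) (d : ℕ) (b : Fin r → ℕ), Ok U → Full U →
    Algebra.trdeg F K = d → (∀ i, 1 ≤ b i) →
    ∃ (e : ℕ) (δ : Fin r → ℕ) (c₀ : ℕ), 0 < e ∧ ∑ i, b i * δ i ≤ e ∧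
      (∀ a : Fin r → ℕ, hf U a ≤ e * ((∑ i, a i * δ i) / e + d).choose d) ∧
      ∀ N, c₀ ≤ N → e * (N - c₀ + d).choose d ≤ hf U (fun i => N * b i)

/-- SUP. Supporting functionals: the `d`-th root of the leading form is concave. -/
def T_SUP : Prop :=
  ∀ (F : Type u) [Field F] [Infinite F] (K : Type u) [Field K] [Algebra F K] (r : ℕ)
    (U : Fin r → Submodule F K) (d : ℕ) (P : MvPolynomial (Fin r) ℚ), Ok U → Full U →
    Algebra.trdeg F K = d → IsHP U P → P.totalDegree ≤ d → 0 < r →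
    ∀ b : Fin r → ℕ, (∀ i, 1 ≤ b i) →
      0 < eval (fun i => (b i : ℚ)) (lead d P) ∧
      ∃ l : Fin r → ℚ, ∑ i, (b i : ℚ) * l i = 1 ∧ ∀ a : Fin r → ℕ, (∀ i, 1 ≤ a i) →
        eval (fun i => (a i : ℚ)) (lead d P) ≤
          eval (fun i => (b i : ℚ)) (lead d P) * (∑ i, (a i : ℚ) * l i) ^ d

/-- The second derivative in direction `v`. -/
noncomputable def d2 {r : ℕ} (v : Fin r → ℚ) (p : MvPolynomial (Fin r) ℚ) :
    MvPolynomial (Fin r) ℚ := ∑ i, ∑ j, C (v i * v j) * pderiv i (pderiv j p)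

/-- The first derivative in direction `v`. -/
noncomputable def d1 {r : ℕ} (v : Fin r → ℚ) (p : MvPolynomial (Fin r) ℚ) :
    MvPolynomial (Fin r) ℚ := ∑ i, C (v i) * pderiv i p

/-- The Hodge index inequality on the closed orthant. -/
def Hess {r : ℕ} (d : ℕ) (p : MvPolynomial (Fin r) ℚ) : Prop :=
  ∀ b v : Fin r → ℚ, (∀ i, 0 ≤ b i) →
    (d : ℚ) * eval b p * eval b (d2 v p) ≤ (d - 1) * (eval b (d1 v p)) ^ 2

/-- HES. Supporting functionals give the Hodge index inequality. -/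
def T_HES : Prop :=
  ∀ (r d : ℕ) (p : MvPolynomial (Fin r) ℚ), p.IsHomogeneous d → 0 < d →
    (∀ b : Fin r → ℕ, (∀ i, 1 ≤ b i) → 0 < eval (fun i => (b i : ℚ)) p ∧
      ∃ l : Fin r → ℚ, ∑ i, (b i : ℚ) * l i = 1 ∧ ∀ a : Fin r → ℕ, (∀ i, 1 ≤ a i) →
        eval (fun i => (a i : ℚ)) p ≤
          eval (fun i => (b i : ℚ)) p * (∑ i, (a i : ℚ) * l i) ^ d) → Hess d p

/-- KLA. The numerical part of the passage to a divisor. -/
def T_KLA : Prop :=
  ∀ (d s ℓ : ℕ) (p : MvPolynomial (Fin 3) ℚ) (q : MvPolynomial (Fin 2) ℚ), 2 ≤ d → 0 < ℓ →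
    p.IsHomogeneous d → q.IsHomogeneous (d - 1) → Hess d p → Hess (d - 1) q →
    0 < eval ![1, 1, 0] p → 0 < eval ![1, 1] q →
    eval ![1, 1, 0] (pderiv 0 p - pderiv 1 p) = 0 →
    eval ![1, 1, 0] (pderiv 0 (pderiv 0 p) - 2 * pderiv 0 (pderiv 1 p) + pderiv 1 (pderiv 1 p))
      = 0 →
    (∀ x y : ℚ, eval ![x, y, 0] (C (s : ℚ) * pderiv 0 p + C (s : ℚ) * pderiv 1 p - pderiv 2 p) =
      ℓ * eval ![x, y] q) →
    Star q

/-- REL. The restriction to a divisor of the leading form. -/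
def T_REL : Prop :=
  ∀ (F : Type u) [Field F] [Infinite F] (K : Type u) [Field K] [Algebra F K]
    (U : Fin 2 → Submodule F K) (d : ℕ) (q : Pt U), Ok U → Full U → Algebra.trdeg F K = d →
    Full q.V → Algebra.trdeg F q.κ + 1 = d →
    ∃ (W : Submodule F K) (s ℓ : ℕ), Ok ![U 0, U 1, W] ∧ Full ![U 0, U 1, W] ∧ 0 < ℓ ∧
      ∀ (P : MvPolynomial (Fin 2) ℚ) (P' : MvPolynomial (Fin 3) ℚ) (Q : MvPolynomial (Fin 2) ℚ),
        IsHP U P → P.totalDegree ≤ d → IsHP ![U 0, U 1, W] P' → P'.totalDegree ≤ d →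
        IsHP q.V Q → Q.totalDegree ≤ d - 1 →
        (∀ x y : ℚ, eval ![x, y, 0] (lead d P') = eval ![x, y] (lead d P)) ∧
        ∀ x y : ℚ, eval ![x, y, 0] (C (s : ℚ) * pderiv 0 (lead d P') +
          C (s : ℚ) * pderiv 1 (lead d P') - pderiv 2 (lead d P')) =
          ℓ * eval ![x, y] (lead (d - 1) Q)

/-- KL. `Star` passes to divisors. -/
def T_KL : Prop :=
  ∀ (F : Type u) [Field F] [Infinite F] (K : Type u) [Field K] [Algebra F K]
    (U : Fin 2 → Submodule F K) (d : ℕ) (q : Pt U), 2 ≤ d → Ok U → Full U →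
    Algebra.trdeg F K = d → Full q.V → Algebra.trdeg F q.κ + 1 = d → StarD d U →
    StarD (d - 1) q.V

/-- DIM. Height one primes of a finitely generated domain drop the transcendence degree by one. -/
def T_DIM : Prop :=
  ∀ (F : Type u) [Field F] (A : Type u) [CommRing A] [IsDomain A] [Algebra F A]
    [Algebra.FiniteType F A] (q : Ideal A) [q.IsPrime], q.height = 1 →
    Algebra.trdeg F (A ⧸ q) + 1 = Algebra.trdeg F A

/-- CH. Between `K` and a point with `trdeg = 1` there is a point with `trdeg = d - 1`. -/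
def T_CH : Prop :=
  ∀ (F : Type u) [Field F] (K : Type u) [Field K] [Algebra F K] (r : ℕ)
    (U : Fin r → Submodule F K) (d : ℕ) (p : Pt U), 2 ≤ d → Ok U → Full U →
    Algebra.trdeg F K = d → Full p.V → Algebra.trdeg F p.κ = 1 →
    ∃ q : Pt U, Full q.V ∧ Algebra.trdeg F q.κ + 1 = d ∧
      ∀ n, ∀ x ∈ pw U n, q.Kills n x → p.Kills n x

/-- COR. `Star` on top is equivalent to `Star` on all curves. -/
def T_COR : Prop :=
  ∀ (F : Type u) [Field F] [Infinite F] (K : Type u) [Field K] [Algebra F K]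
    (U : Fin 2 → Submodule F K) (d : ℕ), Ok U → Full U → Algebra.trdeg F K = d →
    (StarD d U ↔ ∀ p : Pt U, Full p.V → Algebra.trdeg F p.κ = 1 → StarD 1 p.V)

/-! ## Function fields of one variable over an algebraically closed field -/

/-- ORD. Properties of `ordv`. -/
def T_ORD : Prop :=
  ∀ (K : Type u) [Field K] (v : ValuationSubring K), IsDiscreteValuationRing v →
    (∀ x y, x ≠ 0 → y ≠ 0 → ordv v (x * y) = ordv v x + ordv v y) ∧
    (∀ x, x ≠ 0 → (x ∈ v ↔ 0 ≤ ordv v x)) ∧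
    (∀ x y, x ≠ 0 → y ≠ 0 → x + y ≠ 0 → min (ordv v x) (ordv v y) ≤ ordv v (x + y)) ∧
    (∃ x, x ≠ 0 ∧ ordv v x = 1) ∧ ordv v 1 = 0 ∧ ordv v (-1) = 0

/-- FF1. Extension of places in a finite extension: `Σ e = n`. -/
def T_FF1 : Prop :=
  ∀ (F : Type u) [Field F] [IsAlgClosed F] (K : Type u) [Field K] [Algebra F K]
    (L : Type u) [Field L] [Algebra F L] [Algebra K L] [IsScalarTower F K L]
    [FiniteDimensional K L], (⊤ : IntermediateField F K).FG → Algebra.trdeg F K = 1 →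
    ∃ (res : Pl F L → Pl F K) (e : Pl F L → ℕ),
      (∀ v x, x ∈ (res v).1 ↔ algebraMap K L x ∈ v.1) ∧ (∀ v, 0 < e v) ∧
      (∀ v x, ordv v.1 (algebraMap K L x) = e v * ordv (res v).1 x) ∧
      ∀ w : Pl F K, (res ⁻¹' {w}).Finite ∧ ∑ᶠ v ∈ res ⁻¹' {w}, e v = finrank K L

/-- FF2. Product formula. -/
def T_FF2 : Prop :=
  ∀ (F : Type u) [Field F] [IsAlgClosed F] (K : Type u) [Field K] [Algebra F K],
    (⊤ : IntermediateField F K).FG → Algebra.trdeg F K = 1 → ∀ x : K, x ≠ 0 →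
    {v : Pl F K | ordv v.1 x ≠ 0}.Finite ∧ ∑ᶠ v : Pl F K, ordv v.1 x = 0

/-- FF3. The number of poles of `x` is `[K : F(x)]`. -/
def T_FF3 : Prop :=
  ∀ (F : Type u) [Field F] [IsAlgClosed F] (K : Type u) [Field K] [Algebra F K],
    (⊤ : IntermediateField F K).FG → Algebra.trdeg F K = 1 → ∀ x : K, Transcendental F x →
    ∑ᶠ v : Pl F K, max (-ordv v.1 x) 0 = finrank (IntermediateField.adjoin F {x}) K

/-- DEG. The Hilbert polynomial of a curve is given by degrees. -/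
def T_DEG : Prop :=
  ∀ (F : Type u) [Field F] [IsAlgClosed F] (K : Type u) [Field K] [Algebra F K]
    (U : Fin 2 → Submodule F K), Ok U → Full U → Algebra.trdeg F K = 1 →
    (∀ i, {v : Pl F K | mn v.1 (U i) ≠ 0}.Finite) ∧
    (StarD 1 U ↔ ∑ᶠ v : Pl F K, mn v.1 (U 0) = ∑ᶠ v : Pl F K, mn v.1 (U 1))

end Pool.Agent.NumGor
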