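import Mathlib

/-!
# Numerical triviality in families: the algebraic core (MP_58c214_ag)

`K / F` is a field extension, `U_1, …, U_r` finite dimensional non-zero `F`-subspaces of `K`
(linear systems of rational functions).  `U^n = ∏ U_i^{n_i}`, `hf U n = dim U^n`.  A point of
`(K, U)` is a specialisation of `(K, U)` to `(κ, V)`.  All statements are elementary linear algebra.
The proofs are described in `Blueprint.lean.txt` in this directory.
-/

open Module Cardinal

namespace Pool.Agent.NumGor

universe u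

/-! ## Multigraded Hilbert functions -/

section Defs

variable {F : Type u} [Field F] {K : Type u} [Field K] [Algebra F K] {r : ℕ}

/-- `U^n = ∏ U_i^{n_i}`, the span of all products of `n_i` elements of `U_i`. -/
noncomputable def pw (U : Fin r → Submodule F K) (n : Fin r → ℕ) : Submodule F K :=
  ∏ i, U i ^ n i

/-- The Hilbert function `dim U^n`. -/
noncomputable def hf (U : Fin r → Submodule F K) (n : Fin r → ℕ) : ℕ :=
  finrank F (pw U n)

/-- All `U_i` are finite dimensional and non-zero. -/
def Ok (U : Fin r → Submodule F K) : Prop := ∀ i, (U i).FG ∧ U i ≠ ⊥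

/-- The ratios `a / b`, `a, b ∈ U_i`, generate the field `K` over `F`. -/
def Full (U : Fin r → Submodule F K) : Prop :=
  IntermediateField.adjoin F {x : K | ∃ i, ∃ a ∈ U i, ∃ b ∈ U i, x = a / b} = ⊤

/-- A homogeneous ideal of the multigraded ring `⨁ U^n`. -/
structure Fam (U : Fin r → Submodule F K) where
  I : (Fin r → ℕ) → Submodule F K
  le : ∀ n, I n ≤ pw U n
  mul : ∀ n m, pw U n * I m ≤ I (n + m)

/-- A point of `(K, U)`: an `F`-algebra homomorphism `ρ : O → κ` from a subalgebra `O` of `K` to a
field `κ`, and `w_i ∈ U_i` with `U_i / w_i ⊆ O`. -/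
structure Pt (U : Fin r → Submodule F K) where
  κ : Type u
  [fld : Field κ]
  [alg : Algebra F κ]
  O : Subalgebra F K
  ρ : O →ₐ[F] κ
  w : Fin r → K
  w_mem : ∀ i, w i ∈ U i
  w_ne : ∀ i, w i ≠ 0
  div_mem : ∀ i, ∀ x ∈ U i, x / w i ∈ O

attribute [instance] Pt.fld Pt.alg

namespace Pt

variable {U : Fin r → Submodule F K} (p : Pt U)

/-- `w^n`. -/
noncomputable def wn (n : Fin r → ℕ) : K := ∏ i, p.w i ^ n i

/-- The element `x` of `U^n` goes to `0` under `x ↦ ρ (x / w^n)`. -/
def Kills (n : Fin r → ℕ) (x : K) : Prop := ∃ h : x / p.wn n ∈ p.O, p.ρ ⟨_, h⟩ = 0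

/-- The residual linear systems `V_i = ρ (U_i / w_i) ⊆ κ`. -/
noncomputable def V (i : Fin r) : Submodule F p.κ :=
  Submodule.span F (Set.range fun x : U i => p.ρ ⟨x.1 / p.w i, p.div_mem i x.1 x.2⟩)

end Pt

/-- `P` is the Hilbert polynomial of `U`: `hf U n = P(n)` if all `n_i` are large. -/
def IsHP (U : Fin r → Submodule F K) (P : MvPolynomial (Fin r) ℚ) : Prop :=
  ∃ n₀ : ℕ, ∀ n : Fin r → ℕ, (∀ i, n₀ ≤ n i) →
    (hf U n : ℚ) = MvPolynomial.eval (fun i => (n i : ℚ)) P

/-- The degree `d` part. -/
noncomputable def lead (d : ℕ) (P : MvPolynomial (Fin r) ℚ) : MvPolynomial (Fin r) ℚ :=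
  MvPolynomial.homogeneousComponent d P

/-- The derivative in direction `(1, -1)`. -/
noncomputable def dN (p : MvPolynomial (Fin 2) ℚ) : MvPolynomial (Fin 2) ℚ :=
  MvPolynomial.pderiv 0 p - MvPolynomial.pderiv 1 p

/-- `p(1+t, 1-t) = p(1,1) + O(t³)`. -/
def Star (p : MvPolynomial (Fin 2) ℚ) : Prop :=
  MvPolynomial.eval ![1, 1] (dN p) = 0 ∧ MvPolynomial.eval ![1, 1] (dN (dN p)) = 0

/-- The leading form (degree `d`) of the Hilbert polynomial satisfies `Star`. -/
def StarD (d : ℕ) (U : Fin 2 → Submodule F K) : Prop :=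
  ∀ P : MvPolynomial (Fin 2) ℚ, IsHP U P → P.totalDegree ≤ d → Star (lead d P)

end Defs

/-! ## Places of function fields of one variable -/

section Places

variable (F : Type u) [Field F] (K : Type u) [Field K] [Algebra F K]

/-- Discrete valuation rings of `K` containing `F`. -/
def Pl : Type u :=
  {v : ValuationSubring K // IsDiscreteValuationRing v ∧ ∀ a : F, algebraMap F K a ∈ v}

variable {F K}

open Classical in
/-- The normalised order of `x` at the discrete valuation ring `v` (`0` for `x = 0`). -/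
noncomputable def ordv (v : ValuationSubring K) (x : K) : ℤ :=
  if h : IsDiscreteValuationRing v then
    Multiplicative.toAdd ((Ring.ordFrac v x).unzeroD 1) else 0

/-- The minimal order of the non-zero elements of `V`. -/
noncomputable def mn (v : ValuationSubring K) (V : Submodule F K) : ℤ :=
  sInf {n : ℤ | ∃ x ∈ V, x ≠ 0 ∧ ordv v x = n}

end Places

end Pool.Agent.NumGor
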